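import Pool.Graph.R_seed8.R700.TPg

/-!
# MP_7792ce_al: nonnormal subgroups of least order

Let `tpLeast G` be the minimum of `P_G(H)` over those subgroups `H` of the finite group `G` for which
all subgroups of `G` of order smaller than `|H|` are normal. Such a subgroup is normal (and then
`P_G(H) = 1`) or it is a nonnormal subgroup of least order. So `tp(G) ≤ tpLeast(G)`, and
if `G` is not a Dedekind group then `tpLeast(G)` is the minimum of `P_G(H)` over the nonnormal
subgroups `H` of least order.

The result says that all assertions of the question hold for `tpLeast` in place of `tp`, and it gives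
the value of `P_G(H)` for a nonnormal subgroup of least order: `H` is cyclic of prime power order
`p ^ e` and `P_G(H) = (p! / p ^ p) ^ t`, where `p t = (G : H) - (N_G(H) : H)`. Moreover every nonnormal
subgroup `H` of least order satisfies `P_G(H) < cp(G)`, unless `G` is some `G_n` or `Q_16`.

The proof follows the proof of the library result for `tp` (`Pool/Graph/R_seed8/R700`), in which only
the inequality `tp(G) ≤ P_G(H)` for such subgroups `H` is used, but for all of them at the same time.
To treat one subgroup `H = ⟨h⟩` of order `m = 2 ^ e` with `(G : N_G(H)) = 2` one needs `|C(z)| ≥ 2m` for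
all `z`. If `h` commutes with a conjugate outside `H` and `m > 2`, there are two central involutions,
and a cyclic group `⟨z⟩` contains at most one of them; if `m = 2`, then `4` divides
`|C(z)| = |N(⟨z⟩)| = |G| - 4 t(z)` for every noncentral involution `z`.
-/

set_option autoImplicit false

namespace Pool.Agent.Results.MP_7792ce_al.LeastOrderSubgroups

open Subgroup Pool.Agent.R864.TP Pool.Agent.R700.TP
open scoped Nat

/-- All subgroups of smaller order than `H` are normal. -/
def Least {G : Type} [Group G] (H : Subgroup G) : Prop :=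
  ∀ L : Subgroup G, Nat.card L < Nat.card H → L.Normal

/-- The minimum (for a finite group) of `P_G(H)` over all subgroups `H` such that all subgroups of
smaller order are normal. -/
noncomputable def tpLeast (G : Type) [Group G] : ℝ := ⨅ H : {H : Subgroup G // Least H}, P H.1

/-- A group is Dedekind if all of its subgroups are normal. -/
def IsDedekind (G : Type) [Group G] : Prop := ∀ H : Subgroup G, H.Normal

/-- A group is abelian. -/
def IsAbelian (G : Type) [Group G] : Prop := ∀ a b : G, a * b = b * a

section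

variable {G : Type} [Group G]

theorem nonnormal_zpowers {H : Subgroup G} (hH : ¬ H.Normal) : ∃ x ∈ H, ¬ (zpowers x).Normal := by
  by_contra hcon
  push Not at hcon
  apply hH
  refine ⟨fun a ha b => ?_⟩
  have h1 := (hcon a ha).conj_mem a (mem_zpowers a) b
  exact (zpowers_le.mpr ha) h1

theorem least_of_min [Finite G] {h : G} (hh : MinNN h) : Least (zpowers h) := by
  intro L hL
  by_contra hcon
  obtain ⟨x, hx, hxn⟩ := nonnormal_zpowers hcon
  apply hxn
  apply hh.min
  rw [← Nat.card_zpowers, ← Nat.card_zpowers]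
  refine lt_of_le_of_lt ?_ hL
  exact Nat.le_of_dvd Nat.card_pos (Subgroup.card_dvd_of_le (zpowers_le.mpr hx))

theorem min_of_least [Finite G] {H : Subgroup G} (hH : ¬ H.Normal) (hl : Least H) :
    ∃ h : G, MinNN h ∧ zpowers h = H := by
  obtain ⟨x, hx, hxn⟩ := nonnormal_zpowers hH
  have hle : zpowers x ≤ H := zpowers_le.mpr hx
  have hcard : Nat.card H ≤ Nat.card (zpowers x) := by
    by_contra hcon
    exact hxn (hl _ (by omega))
  have he : zpowers x = H := Subgroup.eq_of_le_of_card_ge hle hcard
  refine ⟨x, ⟨hxn, fun y hy => ?_⟩, he⟩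
  apply hl
  rw [← he, Nat.card_zpowers, Nat.card_zpowers]
  exact hy

theorem least_bot [Finite G] : Least (⊥ : Subgroup G) := by
  intro L hL
  exfalso
  rw [Subgroup.card_bot] at hL
  have h1 : 0 < Nat.card L := Nat.card_pos
  omega

theorem tpLeast_le [Finite G] (H : Subgroup G) (h : Least H) : tpLeast G ≤ P H :=
  ciInf_le (Set.finite_range fun H : {H : Subgroup G // Least H} => P H.1).bddBelow ⟨H, h⟩

theorem tp_le_tpLeast [Finite G] : tp G ≤ tpLeast G := by
  have : Nonempty {H : Subgroup G // Least H} := ⟨⟨⊥, least_bot⟩⟩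
  exact le_ciInf fun H => tp_le H.1

theorem tpLeast_attained [Finite G] : ∃ H : Subgroup G, Least H ∧ P H = tpLeast G := by
  have : Nonempty {H : Subgroup G // Least H} := ⟨⟨⊥, least_bot⟩⟩
  obtain ⟨H, hH⟩ := exists_eq_ciInf_of_finite (f := fun H : {H : Subgroup G // Least H} => P H.1)
  exact ⟨H.1, H.2, hH⟩

/-- The main inequality. -/
theorem main_least [Finite G] (hnd : ¬ ∀ H : Subgroup G, H.Normal) :
    tpLeast G < (commProb G : ℝ) ∨ (∃ n, 1 ≤ n ∧ Nonempty (G ≃* Gn n)) ∨
      Nonempty (G ≃* QuaternionGroup 4) := by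
  have := Fintype.ofFinite G
  by_contra hcon
  push Not at hcon
  obtain ⟨hle, hGn, hQ⟩ := hcon
  have hex : ∃ x : G, ¬ (zpowers x).Normal := by
    by_contra hcon
    push Not at hcon
    exact hnd (dedekind_of_cyclic hcon)
  have key : ∀ q : ℚ, q < commProb G → (q : ℝ) < tpLeast G := by
    intro q hq
    have : (q : ℝ) < (commProb G : ℝ) := by exact_mod_cast hq
    exact this.trans_le hle
  have claim : ∀ h : G, MinNN h → ∃ e t, 1 ≤ e ∧ orderOf h = 2 ^ e ∧ (t = 1 ∨ t = 2 ∨ t = 3) ∧
      Nat.card G = 4 * t * 2 ^ e ∧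
      Nat.card (normalizer (zpowers h : Set G)) = 2 * t * 2 ^ e ∧ tpLeast G ≤ (1 / 2) ^ t := by
    intro h hh
    obtain ⟨p, e, hp, he, ho⟩ := hh.prime_pow
    obtain ⟨t, ht, hG, hP⟩ := hh.P_eq hp he ho
    have hppos : 0 < p ^ e := pow_pos hp.pos e
    have hdvd : p ^ e ∣ Nat.card (normalizer (zpowers h : Set G)) := by
      rw [← ho, ← Nat.card_zpowers]
      exact Subgroup.card_dvd_of_le le_normalizer
    obtain ⟨k, hk⟩ := hdvd
    have hk1 : 1 ≤ k := by
      rcases Nat.eq_zero_or_pos k with h0 | h0
      · rw [h0, mul_zero] at hk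
        have : 0 < Nat.card (normalizer (zpowers h : Set G)) := Nat.card_pos
        omega
      · exact h0
    have hG' : Nat.card G = (k + p * t) * p ^ e := by rw [hG, hk]; ring
    have hkd : k ∣ p * t := by
      have h1 : Nat.card (normalizer (zpowers h : Set G)) ∣ Nat.card G :=
        Subgroup.card_subgroup_dvd_card _
      rw [hk, hG', mul_comm] at h1
      have h2 : k ∣ k + p * t := Nat.dvd_of_mul_dvd_mul_right hppos h1
      exact (Nat.dvd_add_right (dvd_refl k)).mp h2
    have htpP : tpLeast G ≤ F p ^ t := by rw [← hP]; exact tpLeast_le _ (least_of_min hh)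
    rcases numeric p t k hp ht hk1 hkd with h1 | ⟨rfl, h1⟩ | ⟨rfl, rfl, rfl⟩
    · exfalso
      have h2 := key _ hh.commProb_gt
      have h3 : ((orderOf h : ℚ) / Nat.card G : ℚ) = 1 / ((k + p * t : ℕ) : ℚ) := by
        rw [ho, hG']
        have h4 : (0 : ℚ) < (p : ℚ) ^ e := by
          have : (0 : ℚ) < p := by exact_mod_cast hp.pos
          positivity
        have h5 : (0 : ℚ) < ((k + p * t : ℕ) : ℚ) := by
          have : 0 < k + p * t := by omega
          exact_mod_cast this
        rw [Nat.cast_mul, Nat.cast_pow]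
        field_simp
      rw [h3] at h2
      push_cast at h2 h1
      linarith
    · have hF : F 2 ^ t = (1 / 2) ^ t := by rw [F_two']
      rw [hF] at htpP
      rcases h1 with ⟨rfl, rfl | rfl⟩ | ⟨rfl, rfl | rfl | rfl⟩ | ⟨rfl, rfl | rfl⟩
      · exfalso
        have hc3 : Nat.card G = 3 * 2 ^ e := by rw [hG']
        obtain ⟨a, b, ha, hb, hab, hgen⟩ := case_three hh he ho hc3
        exact (hGn e he).false (Gn_equiv e hc3 a b ha hb hab hgen).some
      · exact ⟨e, 1, he, ho, Or.inl rfl, by rw [hG'], by rw [hk]; ring, htpP⟩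
      · exfalso
        have hc : Nat.card G = 5 * 2 ^ e := by rw [hG']
        have h2 := sum_odd hh he ho 5 (by decide) hc
        have h3 := lt_commProb_of_sum (G := G) 1 4 (by norm_num) (by
          rw [hc]
          have : 0 < (2 ^ e) ^ 2 := by positivity
          norm_num at h2
          nlinarith)
        have h4 := key _ h3
        norm_num at h4 htpP
        linarith
      · exfalso
        have hc : Nat.card G = 6 * 2 ^ e := by rw [hG']
        have h3 := case_six hh he ho hc (by rw [hk]; ring)
        have h4 := key _ h3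
        norm_num at h4 htpP
        linarith
      · exact ⟨e, 2, he, ho, Or.inr (Or.inl rfl), by rw [hG'], by rw [hk]; ring, htpP⟩
      · exfalso
        have hc : Nat.card G = 9 * 2 ^ e := by rw [hG']
        have h2 := sum_odd hh he ho 9 (by decide) hc
        have h3 := lt_commProb_of_sum (G := G) 1 8 (by norm_num) (by
          rw [hc]
          have : 0 < (2 ^ e) ^ 2 := by positivity
          norm_num at h2
          nlinarith)
        have h4 := key _ h3
        norm_num at h4 htpP
        linarith
      · exact ⟨e, 3, he, ho, Or.inr (Or.inr rfl), by rw [hG'], by rw [hk]; ring, htpP⟩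
    · exfalso
      exact case_p_three hh he ho (by rw [hG']) (by rw [hk]; ring)
  obtain ⟨h, hh⟩ := exists_min hex
  obtain ⟨e, t, he, ho, ht, hcard, hNc, htp⟩ := claim h hh
  have hN : ∀ x : G, MinNN x → orderOf x = orderOf h →
      Nat.card (normalizer (zpowers x : Set G)) = 2 * t * 2 ^ e := by
    intro x hx hxo
    obtain ⟨e', t', he', ho', ht', hcard', hNc', -⟩ := claim x hx
    have hee : e' = e := by
      rw [ho', ho] at hxo
      exact Nat.pow_right_injective (le_refl 2) hxo
    subst hee
    have htt : t' = t := by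
      rw [hcard] at hcard'
      have h1 : 0 < 2 ^ e' := by positivity
      have h2 := Nat.eq_of_mul_eq_mul_right h1 hcard'
      omega
    rw [hNc', htt]
  rcases j2_final hh he ho t ht hcard hN with h1 | h1
  · have h2 := key _ h1
    push_cast at h2
    linarith
  · exact hQ.false h1.some

/-- The inequality for one nonnormal cyclic subgroup of least order, up to the case of normalizers
of index two. -/
theorem one_least [Finite G] {h : G} (hh : MinNN h)
    (hle : (commProb G : ℝ) ≤ P (zpowers h)) (hGn : ∀ n, 1 ≤ n → IsEmpty (G ≃* Gn n)) :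
    ∃ e t, 1 ≤ e ∧ orderOf h = 2 ^ e ∧ (t = 1 ∨ t = 2 ∨ t = 3) ∧
      Nat.card G = 4 * t * 2 ^ e ∧
      Nat.card (normalizer (zpowers h : Set G)) = 2 * t * 2 ^ e ∧
      P (zpowers h) ≤ (1 / 2) ^ t := by
  have := Fintype.ofFinite G
  have key : ∀ q : ℚ, q < commProb G → (q : ℝ) < P (zpowers h) := by
    intro q hq
    have : (q : ℝ) < (commProb G : ℝ) := by exact_mod_cast hq
    exact this.trans_le hle
  obtain ⟨p, e, hp, he, ho⟩ := hh.prime_pow
  obtain ⟨t, ht, hG, hP⟩ := hh.P_eq hp he ho
  have hppos : 0 < p ^ e := pow_pos hp.pos e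
  have hdvd : p ^ e ∣ Nat.card (normalizer (zpowers h : Set G)) := by
    rw [← ho, ← Nat.card_zpowers]
    exact Subgroup.card_dvd_of_le le_normalizer
  obtain ⟨k, hk⟩ := hdvd
  have hk1 : 1 ≤ k := by
    rcases Nat.eq_zero_or_pos k with h0 | h0
    · rw [h0, mul_zero] at hk
      have : 0 < Nat.card (normalizer (zpowers h : Set G)) := Nat.card_pos
      omega
    · exact h0
  have hG' : Nat.card G = (k + p * t) * p ^ e := by rw [hG, hk]; ring
  have hkd : k ∣ p * t := by
    have h1 : Nat.card (normalizer (zpowers h : Set G)) ∣ Nat.card G :=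
      Subgroup.card_subgroup_dvd_card _
    rw [hk, hG', mul_comm] at h1
    have h2 : k ∣ k + p * t := Nat.dvd_of_mul_dvd_mul_right hppos h1
    exact (Nat.dvd_add_right (dvd_refl k)).mp h2
  have htpP : P (zpowers h) ≤ F p ^ t := by rw [← hP]
  rcases numeric p t k hp ht hk1 hkd with h1 | ⟨rfl, h1⟩ | ⟨rfl, rfl, rfl⟩
  · exfalso
    have h2 := key _ hh.commProb_gt
    have h3 : ((orderOf h : ℚ) / Nat.card G : ℚ) = 1 / ((k + p * t : ℕ) : ℚ) := by
      rw [ho, hG']
      have h4 : (0 : ℚ) < (p : ℚ) ^ e := by
        have : (0 : ℚ) < p := by exact_mod_cast hp.pos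
        positivity
      have h5 : (0 : ℚ) < ((k + p * t : ℕ) : ℚ) := by
        have : 0 < k + p * t := by omega
        exact_mod_cast this
      rw [Nat.cast_mul, Nat.cast_pow]
      field_simp
    rw [h3] at h2
    push_cast at h2 h1
    linarith
  · have hF : F 2 ^ t = (1 / 2) ^ t := by rw [F_two']
    rw [hF] at htpP
    rcases h1 with ⟨rfl, rfl | rfl⟩ | ⟨rfl, rfl | rfl | rfl⟩ | ⟨rfl, rfl | rfl⟩
    · exfalso
      have hc3 : Nat.card G = 3 * 2 ^ e := by rw [hG']
      obtain ⟨a, b, ha, hb, hab, hgen⟩ := case_three hh he ho hc3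
      exact (hGn e he).false (Gn_equiv e hc3 a b ha hb hab hgen).some
    · exact ⟨e, 1, he, ho, Or.inl rfl, by rw [hG'], by rw [hk]; ring, htpP⟩
    · exfalso
      have hc : Nat.card G = 5 * 2 ^ e := by rw [hG']
      have h2 := sum_odd hh he ho 5 (by decide) hc
      have h3 := lt_commProb_of_sum (G := G) 1 4 (by norm_num) (by
        rw [hc]
        have : 0 < (2 ^ e) ^ 2 := by positivity
        norm_num at h2
        nlinarith)
      have h4 := key _ h3
      norm_num at h4 htpP
      linarith
    · exfalso
      have hc : Nat.card G = 6 * 2 ^ e := by rw [hG']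
      have h3 := case_six hh he ho hc (by rw [hk]; ring)
      have h4 := key _ h3
      norm_num at h4 htpP
      linarith
    · exact ⟨e, 2, he, ho, Or.inr (Or.inl rfl), by rw [hG'], by rw [hk]; ring, htpP⟩
    · exfalso
      have hc : Nat.card G = 9 * 2 ^ e := by rw [hG']
      have h2 := sum_odd hh he ho 9 (by decide) hc
      have h3 := lt_commProb_of_sum (G := G) 1 8 (by norm_num) (by
        rw [hc]
        have : 0 < (2 ^ e) ^ 2 := by positivity
        norm_num at h2
        nlinarith)
      have h4 := key _ h3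
      norm_num at h4 htpP
      linarith
    · exact ⟨e, 3, he, ho, Or.inr (Or.inr rfl), by rw [hG'], by rw [hk]; ring, htpP⟩
  · exfalso
    exact case_p_three hh he ho (by rw [hG']) (by rw [hk]; ring)

/-- If a minimal element commutes with its conjugates and its normalizer has index two, then all
centralizers have order at least `2m`. -/
theorem two_mul_le_cz_one [Finite G] {h : G} (hh : MinNN h) {e t : ℕ} (he : 1 ≤ e)
    (ho : orderOf h = 2 ^ e) (hcard : Nat.card G = 4 * t * 2 ^ e)
    (hN : (normalizer (zpowers h : Set G)).index = 2)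
    (hall : ∀ g : G, Commute h (g * h * g⁻¹)) (z : G) : 2 * orderOf h ≤ cz z := by
  obtain ⟨g, hg⟩ := not_comm_of_not_mem h hh.nn
  have hcomm := hall g
  by_cases hz : (zpowers z).Normal
  · have hA := closure_comm ({h, g * h * g⁻¹} : Set G) (by
      intro a ha b hb
      simp only [Set.mem_insert_iff, Set.mem_singleton_iff] at ha hb
      rcases ha with rfl | rfl <;> rcases hb with rfl | rfl
      · rfl
      · exact hcomm.eq
      · exact hcomm.symm.eq
      · rfl)
    have h2 := card_le_cz _ hA z hz
    have h3 : 2 * Nat.card (zpowers h) ≤ Nat.card (closure ({h, g * h * g⁻¹} : Set G)) := by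
      apply two_mul_card_le (zpowers h) (closure ({h, g * h * g⁻¹} : Set G)) _ (g * h * g⁻¹) hg
      · exact subset_closure (by simp)
      · rw [zpowers_le]; exact subset_closure (by simp)
    rw [Nat.card_zpowers] at h3
    exact h3.trans h2
  · have hle : orderOf h ≤ orderOf z := by
      by_contra hlt
      push Not at hlt
      exact hz (hh.min z hlt)
    rcases Nat.lt_or_eq_of_le hle with h1 | h1
    · exact hh.two_mul_le_cz_of_lt ho hN z hz h1
    · have hzm : MinNN z := ⟨hz, fun y hy => hh.min y (by rw [h1]; exact hy)⟩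
      have hzo : orderOf z = 2 ^ e := by rw [← h1, ho]
      rcases Nat.lt_or_ge 1 e with he1 | he1
      · -- two central involutions
        have hlt : 2 < 2 ^ e := by
          calc 2 < 2 ^ 2 := by norm_num
            _ ≤ 2 ^ e := Nat.pow_le_pow_right (by norm_num) he1
        have hcen : ∀ y : G, y ^ 2 = 1 → ∀ w, w * y = y * w := by
          intro y hy
          apply central_of_sq y hy
          apply hh.min
          have := Nat.le_of_dvd (by norm_num) (orderOf_dvd_of_pow_eq_one hy)
          omega
        set u := h ^ (2 ^ (e - 1)) with hu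
        have hee : 2 ^ (e - 1) * 2 = 2 ^ e := by
          rw [← pow_succ]; congr 1; omega
        have hu2 : u ^ 2 = 1 := by
          rw [hu, ← pow_mul, hee, ← ho, pow_orderOf_eq_one]
        have hu1 : u ≠ 1 := by
          intro h0
          have := Nat.le_of_dvd (by positivity) (orderOf_dvd_of_pow_eq_one h0)
          rw [ho] at this
          have h5 : 0 < 2 ^ (e - 1) := by positivity
          omega
        have hsq : (zpowers (h ^ 2)).Normal := by
          apply hh.min
          rw [orderOf_pow_of_dvd (by norm_num) (by rw [ho]; exact dvd_pow_self 2 (by omega)), ho]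
          exact Nat.div_lt_self (by positivity) (by norm_num)
        have hmem : g * h ^ 2 * g⁻¹ ∈ zpowers (h ^ 2) := hsq.conj_mem _ (mem_zpowers _) g
        obtain ⟨i, hi⟩ := hmem
        have hi' : (h ^ 2) ^ i = g * h ^ 2 * g⁻¹ := hi
        set v := g * h * g⁻¹ * (h ^ i)⁻¹ with hv
        have hv2 : v ^ 2 = 1 := by
          have h5 : Commute (g * h * g⁻¹) (h ^ i)⁻¹ := (hcomm.symm.zpow_right i).inv_right
          rw [hv, h5.mul_pow]
          have h6 : (g * h * g⁻¹) ^ 2 = (h ^ i) ^ 2 := by
            rw [conj_pow, ← hi', ← zpow_natCast, ← zpow_natCast, ← zpow_mul, ← zpow_mul, mul_comm]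
          rw [h6, inv_pow, mul_inv_cancel]
        have hvh : v ∉ zpowers h := by
          intro h0
          apply hg
          have h5 : g * h * g⁻¹ = v * h ^ i := by rw [hv, inv_mul_cancel_right]
          rw [h5]
          exact mul_mem h0 (zpow_mem (mem_zpowers h) i)
        have huv : u ≠ v := by
          intro h0
          apply hvh
          rw [← h0, hu]
          exact pow_mem (mem_zpowers h) _
        have hv1 : v ≠ 1 := by
          intro h0
          apply hvh
          rw [h0]
          exact one_mem _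
        have hex : ∃ y : G, y ^ 2 = 1 ∧ y ∉ zpowers z := by
          by_contra hcon
          push Not at hcon
          classical
          have := Fintype.ofFinite (zpowers z)
          have h5 := IsCyclic.card_pow_eq_one_le (α := zpowers z) (n := 2) (by norm_num)
          have h6 : ({1, ⟨u, hcon u hu2⟩, ⟨v, hcon v hv2⟩} : Finset (zpowers z)) ⊆
              Finset.univ.filter (fun a : zpowers z => a ^ 2 = 1) := by
            intro a ha
            simp only [Finset.mem_insert, Finset.mem_singleton] at ha
            rw [Finset.mem_filter]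
            refine ⟨Finset.mem_univ _, ?_⟩
            rcases ha with rfl | rfl | rfl
            · exact one_pow 2
            · exact Subtype.ext hu2
            · exact Subtype.ext hv2
          have h7 := (Finset.card_le_card h6).trans h5
          rw [Finset.card_insert_of_notMem, Finset.card_pair] at h7
          · omega
          · intro h0; exact huv (congrArg Subtype.val h0)
          · simp only [Finset.mem_insert, Finset.mem_singleton, not_or]
            exact ⟨fun h0 => hu1 (congrArg Subtype.val h0).symm,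
              fun h0 => hv1 (congrArg Subtype.val h0).symm⟩
        obtain ⟨y, hy2, hyz⟩ := hex
        have h3 := two_mul_le_cz z (zpowers z)
          (fun a ha => zpowers_comm z a ha z (mem_zpowers z)) y hyz (hcen y hy2 z).symm
        rw [Nat.card_zpowers] at h3
        rw [h1]
        exact h3
      · have he' : e = 1 := by omega
        subst he'
        obtain ⟨t', ht', hG', -⟩ := hzm.P_eq Nat.prime_two le_rfl hzo
        have hle2 : Nat.card (normalizer (zpowers z : Set G)) ≤ cz z := by
          apply le_cz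
          intro a ha
          have hz2 : z ^ 2 = 1 := by
            have := pow_orderOf_eq_one z
            rwa [hzo, pow_one] at this
          have h5 : a * z * a⁻¹ ∈ zpowers z := (mem_normalizer_iff.mp ha z).mp (mem_zpowers z)
          obtain ⟨i, hi⟩ := h5
          have hi' : z ^ i = a * z * a⁻¹ := hi
          have hz1 : z ≠ 1 := by
            intro h0
            rw [h0, orderOf_one] at hzo
            norm_num at hzo
          rcases Int.even_or_odd' i with ⟨j, rfl | rfl⟩
          · exfalso
            rw [zpow_mul, zpow_ofNat, hz2, one_zpow] at hi'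
            apply hz1
            have h6 : z = a⁻¹ * (a * z * a⁻¹) * a := by group
            rw [← hi'] at h6
            simpa using h6
          · rw [zpow_add, zpow_mul, zpow_ofNat, hz2, one_zpow, one_mul, zpow_one] at hi'
            nth_rewrite 2 [hi']
            group
        have hNpos : 0 < Nat.card (normalizer (zpowers z : Set G)) := Nat.card_pos
        rw [ho]
        rw [hcard] at hG'
        omega

/-- The case of a normalizer of index 2. -/
theorem j2_one [Finite G] {h : G} (hh : MinNN h) {e : ℕ} (he : 1 ≤ e) (ho : orderOf h = 2 ^ e)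
    (t : ℕ) (ht : t = 1 ∨ t = 2 ∨ t = 3) (hcard : Nat.card G = 4 * t * 2 ^ e)
    (hNh : Nat.card (normalizer (zpowers h : Set G)) = 2 * t * 2 ^ e) :
    (1 / 2 : ℚ) ^ t < commProb G ∨ Nonempty (G ≃* QuaternionGroup 4) := by
  have hpow : 0 < 2 ^ e := by positivity
  have hidx : (normalizer (zpowers h : Set G)).index = 2 := by
    have h1 := (normalizer (zpowers h : Set G)).card_mul_index
    rw [hNh, hcard] at h1
    have ht0 : 0 < t := by omega
    have h2 : 2 * t * 2 ^ e * (normalizer (zpowers h : Set G)).index = 2 * t * 2 ^ e * 2 := by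
      rw [h1]; ring
    exact Nat.eq_of_mul_eq_mul_left (by positivity) h2
  by_cases hall : ∀ g : G, Commute h (g * h * g⁻¹)
  · left
    have h1 := two_mul_le_cz_one hh he ho hcard hidx hall
    have h2 := commProb_gt (2 * orderOf h) h1 (by
      rw [hcard, ho]
      rcases ht with rfl | rfl | rfl <;> omega)
    refine lt_of_le_of_lt ?_ h2
    rw [hcard, ho]
    have hp : (0 : ℚ) < 2 ^ e := by positivity
    rcases ht with rfl | rfl | rfl
    · push_cast; rw [le_div_iff₀ (by positivity)]; nlinarith
    · push_cast; rw [le_div_iff₀ (by positivity)]; nlinarith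
    · push_cast; rw [le_div_iff₀ (by positivity)]; nlinarith
  · push Not at hall
    obtain ⟨g, hg⟩ := hall
    have he2 : e = 2 := by
      by_contra hne
      exact hg (hh.commute_conj he hne ho hidx g)
    subst he2
    have h4 : orderOf h = 4 := by rw [ho]; norm_num
    have hgN : g ∉ normalizer (zpowers h : Set G) := by
      intro hcon
      apply hg
      have h1 : g * h * g⁻¹ ∈ zpowers h := (mem_normalizer_iff.mp hcon h).mp (mem_zpowers h)
      exact zpowers_comm h _ (mem_zpowers h) _ h1
    have hmin : ∀ y : G, orderOf y < 4 → (zpowers y).Normal := by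
      intro y hy
      exact hh.min y (by rw [h4]; exact hy)
    have hinv : ∀ y : G, y ^ 2 = 1 → ∀ z, z * y = y * z := by
      intro y hy
      apply central_of_sq y hy
      apply hmin
      have := Nat.le_of_dvd (by norm_num) (orderOf_dvd_of_pow_eq_one hy)
      omega
    rcases ht with rfl | rfl | rfl
    · right
      obtain ⟨a, b, ha, hba, hab⟩ := q8_case16 (by rw [hcard]; norm_num) hinv h h4
        (by rw [hNh]; norm_num) g hgN hg
      exact Q16_equiv (by rw [hcard]; norm_num) a b ha hba hab
    · left
      have := q8_case32 (by rw [hcard]; norm_num) hinv h h4 (by rw [hNh]; norm_num) g hgN hg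
      norm_num at this ⊢
      exact this
    · left
      have := q8_case48 (by rw [hcard]; norm_num) hmin h h4 (by rw [hNh]; norm_num) g hgN hg
      norm_num at this ⊢
      exact this

theorem every_least [Finite G] {H : Subgroup G} (hH : ¬ H.Normal) (hl : Least H) :
    P H < (commProb G : ℝ) ∨ (∃ n, 1 ≤ n ∧ Nonempty (G ≃* Gn n)) ∨
      Nonempty (G ≃* QuaternionGroup 4) := by
  by_contra hcon
  push Not at hcon
  obtain ⟨hle, hGn, hQ⟩ := hcon
  obtain ⟨h, hh, rfl⟩ := min_of_least hH hl
  obtain ⟨e, t, he, ho, ht, hcard, hNc, htp⟩ := one_least hh hle hGn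
  rcases j2_one hh he ho t ht hcard hNc with h1 | h1
  · have h2 : (((1 / 2 : ℚ) ^ t : ℚ) : ℝ) < (commProb G : ℝ) := by exact_mod_cast h1
    push_cast at h2
    linarith
  · exact hQ.false h1.some

theorem least_value [Finite G] {H : Subgroup G} (hH : ¬ H.Normal) (hl : Least H) :
    IsCyclic H ∧ ∃ p e t : ℕ, p.Prime ∧ 1 ≤ e ∧ 1 ≤ t ∧ Nat.card H = p ^ e ∧
      H.index = H.relIndex (normalizer (H : Set G)) + p * t ∧
      P H = ((p ! : ℝ) / (p : ℝ) ^ p) ^ t := by
  obtain ⟨h, hh, rfl⟩ := min_of_least hH hl
  obtain ⟨p, e, hp, he, ho⟩ := hh.prime_pow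
  obtain ⟨t, ht, hG, hP⟩ := hh.P_eq hp he ho
  refine ⟨inferInstance, p, e, t, hp, he, ht, by rw [Nat.card_zpowers, ho], ?_, hP⟩
  have h1 := (zpowers h).card_mul_index
  have h2 : Nat.card (zpowers h) * (zpowers h).relIndex (normalizer (zpowers h : Set G)) =
      Nat.card (normalizer (zpowers h : Set G)) := by
    have h3 := ((zpowers h).subgroupOf (normalizer (zpowers h : Set G))).card_mul_index
    rw [Nat.card_congr (subgroupOfEquivOfLe (le_normalizer (H := zpowers h))).toEquiv] at h3
    exact h3
  rw [Nat.card_zpowers, ho] at h1 h2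
  have hpos : 0 < p ^ e := pow_pos hp.pos e
  have h3 : p ^ e * (zpowers h).index =
      p ^ e * ((zpowers h).relIndex (normalizer (zpowers h : Set G)) + p * t) := by
    rw [h1, hG, mul_add, h2]; ring
  exact Nat.eq_of_mul_eq_mul_left hpos h3

theorem exists_least [Finite G] (hnd : ¬ ∀ H : Subgroup G, H.Normal) :
    ∃ H : Subgroup G, ¬ H.Normal ∧ Least H := by
  have hex : ∃ x : G, ¬ (zpowers x).Normal := by
    by_contra hcon
    push Not at hcon
    exact hnd (dedekind_of_cyclic hcon)
  obtain ⟨h, hh⟩ := exists_min hex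
  exact ⟨zpowers h, hh.nn, least_of_min hh⟩

theorem least_lt_one [Finite G] {H : Subgroup G} (hH : ¬ H.Normal) (hl : Least H) : P H < 1 := by
  obtain ⟨-, p, e, t, hp, he, ht, -, -, hP⟩ := least_value hH hl
  rw [hP]
  have hF : F p < 1 := by
    rcases Nat.lt_or_ge p 4 with h4 | h4
    · have h2 := hp.two_le
      interval_cases p
      · rw [F_two']; norm_num
      · rw [F_three]; norm_num
    · refine lt_of_le_of_lt (F_bound p h4) ?_
      have : (4 : ℝ) ≤ p := by exact_mod_cast h4
      rw [div_lt_one (by linarith)]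
      linarith
  have h0 : 0 ≤ F p := by unfold F; positivity
  exact pow_lt_one₀ h0 hF (by omega)

theorem tpLeast_dedekind [Finite G] (hD : ∀ H : Subgroup G, H.Normal) : tpLeast G = 1 := by
  obtain ⟨H, -, hH⟩ := tpLeast_attained (G := G)
  rw [← hH, P_normal H (hD H)]

theorem tpLeast_attained_nonnormal [Finite G] (hnd : ¬ ∀ H : Subgroup G, H.Normal) :
    ∃ H : Subgroup G, ¬ H.Normal ∧ Least H ∧ P H = tpLeast G := by
  obtain ⟨H, hl, hH⟩ := tpLeast_attained (G := G)
  refine ⟨H, fun hn => ?_, hl, hH⟩
  obtain ⟨H', hn', hl'⟩ := exists_least hnd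
  have h1 := least_lt_one hn' hl'
  have h2 := tpLeast_le H' hl'
  rw [← hH, P_normal H hn] at h2
  linarith

theorem tpLeast_half [Finite G] (hex : ∃ L : Subgroup G, ¬ L.Normal)
    (hall : ∀ L : Subgroup G, ¬ L.Normal → P L = 1 / 2) : tpLeast G = 1 / 2 := by
  obtain ⟨H, hn, -, hH⟩ := tpLeast_attained_nonnormal (G := G) (by
    intro h
    obtain ⟨L, hL⟩ := hex
    exact hL (h L))
  rw [← hH, hall H hn]

theorem tpLeast_Gn [Finite G] (n : ℕ) (hn : 1 ≤ n) (e : G ≃* Gn n) : tpLeast G = 1 / 2 := by
  have hcard : Nat.card G = 3 * 2 ^ n := by rw [Nat.card_congr e.toEquiv, Gn_card n hn]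
  exact tpLeast_half (exists_nonnormal_congr e (Gn_exists_nonnormal n hn))
    (P_half n hn (nonnormal_congr e _ (Gn_nonnormal n hn)) (by rw [hcard]; omega))

theorem tpLeast_Q16 [Finite G] (e : G ≃* QuaternionGroup 4) : tpLeast G = 1 / 2 := by
  have hcard : Nat.card G = 16 := by
    rw [Nat.card_congr e.toEquiv, Nat.card_eq_fintype_card, QuaternionGroup.card]
  exact tpLeast_half (exists_nonnormal_congr e Q16_exists_nonnormal)
    (P_half 2 (by norm_num) (nonnormal_congr e _ (by norm_num; exact Q16_nonnormal))
      (by rw [hcard]; norm_num))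

end

/-- For every finite group `G`: all assertions of the question hold for `tpLeast` in place of `tp`,
where `tp G ≤ tpLeast G`, with equality in the special cases; if `G` is not Dedekind, `tpLeast G` is
`P_G(H)` for some nonnormal subgroup `H` of least order; for every such subgroup `H` the value of
`P_G(H)` is given, and it is smaller than `cp(G)` unless `G` is `G_n` or `Q_16`. -/
theorem result (G : Type) [Group G] [Finite G] :
    tp G ≤ tpLeast G ∧
    -- attained
    (¬ IsDedekind G → ∃ H : Subgroup G, ¬ H.Normal ∧ Least H ∧ P H = tpLeast G) ∧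
    -- the value of `P` for nonnormal subgroups of least order
    (∀ H : Subgroup G, ¬ H.Normal → Least H → IsCyclic H ∧ ∃ p e t : ℕ, p.Prime ∧ 1 ≤ e ∧
      1 ≤ t ∧ Nat.card H = p ^ e ∧ H.index = H.relIndex (normalizer (H : Set G)) + p * t ∧
      P H = ((p ! : ℝ) / (p : ℝ) ^ p) ^ t) ∧
    -- the inequality for every nonnormal subgroup of least order
    (∀ H : Subgroup G, ¬ H.Normal → Least H → P H < (commProb G : ℝ) ∨
      (∃ n, 1 ≤ n ∧ Nonempty (G ≃* Gn n)) ∨ Nonempty (G ≃* QuaternionGroup 4)) ∧
    -- (i)
    (¬ (IsDedekind G ∧ ¬ IsAbelian G) → IsEmpty (G ≃* QuaternionGroup 4) →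
      tpLeast G ≤ (commProb G : ℝ)) ∧
    (IsDedekind G → ¬ IsAbelian G → (commProb G : ℝ) / tpLeast G = 5 / 8) ∧
    (Nonempty (G ≃* QuaternionGroup 4) → (commProb G : ℝ) / tpLeast G = 7 / 8) ∧
    -- (ii)
    (tpLeast G = (commProb G : ℝ) ↔ IsAbelian G ∨ ∃ n, 1 ≤ n ∧ Nonempty (G ≃* Gn n)) ∧
    (∀ n, 1 ≤ n → Nonempty (G ≃* Gn n) → tpLeast G = 1 / 2 ∧ (commProb G : ℝ) = 1 / 2) ∧
    -- in the special cases `tpLeast` is `tp`
    (IsDedekind G ∨ Nonempty (G ≃* QuaternionGroup 4) ∨ (∃ n, 1 ≤ n ∧ Nonempty (G ≃* Gn n)) →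
      tpLeast G = tp G) := by
  have hab : IsAbelian G → (commProb G : ℝ) = 1 := by
    intro h
    have : IsMulCommutative G := ⟨⟨h⟩⟩
    have h1 := commProb_eq_one_iff.mpr this
    rw [h1]; norm_num
  have hG : ∀ n, 1 ≤ n → Nonempty (G ≃* Gn n) → tpLeast G = 1 / 2 ∧ (commProb G : ℝ) = 1 / 2 := by
    rintro n hn ⟨e⟩
    refine ⟨tpLeast_Gn n hn e, ?_⟩
    rw [cp_Gn n hn e]; norm_num
  have hna : ¬ IsAbelian G → ∃ a b : G, a * b ≠ b * a := by
    intro hA
    by_contra hcon
    push Not at hcon
    exact hA hcon
  refine ⟨tp_le_tpLeast, tpLeast_attained_nonnormal, fun H hn hl => least_value hn hl,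
    fun H hn hl => every_least hn hl, ?_, ?_, ?_, ⟨?_, ?_⟩, hG, ?_⟩
  · intro h1 h2
    by_cases hD : IsDedekind G
    · have hA : IsAbelian G := by
        by_contra hcon
        exact h1 ⟨hD, hcon⟩
      rw [hab hA, tpLeast_dedekind hD]
    · rcases main_least hD with h3 | ⟨n, hn, h3⟩ | h3
      · exact h3.le
      · obtain ⟨h4, h5⟩ := hG n hn h3
        rw [h4, h5]
      · exact absurd h3 (not_nonempty_iff.mpr h2)
  · intro hD hA
    rw [dedekind_commProb hD (hna hA), tpLeast_dedekind hD]
    norm_num
  · rintro ⟨e⟩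
    rw [cp_Q16 e, tpLeast_Q16 e]
    norm_num
  · intro heq
    by_cases hD : IsDedekind G
    · left
      by_contra hA
      rw [dedekind_commProb hD (hna hA), tpLeast_dedekind hD] at heq
      norm_num at heq
    · right
      rcases main_least hD with h3 | h3 | ⟨⟨e⟩⟩
      · exact absurd heq h3.ne
      · exact h3
      · exfalso
        rw [cp_Q16 e, tpLeast_Q16 e] at heq
        norm_num at heq
  · rintro (hA | ⟨n, hn, h3⟩)
    · rw [hab hA, tpLeast_dedekind]
      intro H
      refine ⟨fun a ha b => ?_⟩
      rw [hA b a, mul_inv_cancel_right]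
      exact ha
    · obtain ⟨h4, h5⟩ := hG n hn h3
      rw [h4, h5]
  · rintro (hD | ⟨⟨e⟩⟩ | ⟨n, hn, ⟨e⟩⟩)
    · rw [tpLeast_dedekind hD, tp_dedekind hD]
    · rw [tpLeast_Q16 e, tp_Q16 e]
    · rw [tpLeast_Gn n hn e, tp_Gn n hn e]

end Pool.Agent.Results.MP_7792ce_al.LeastOrderSubgroups
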